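import Pool.Agent.Work.MP_bb13ef_an.Bd.B05

/-!
# Embeddings into dual spaces
-/

set_option autoImplicit false

namespace MPbb13ef

/-- If `X` has numerical index one and embeds isomorphically into `Y*` then `Y` or `X` contains
`ℓ₁`; if `X` is isomorphic to `Y*` then `X` contains `ℓ₁`. -/
theorem DUAL2 (X Y : Type) [NormedAddCommGroup X] [NormedSpace ℝ X] [CompleteSpace X]
    [NormedAddCommGroup Y] [NormedSpace ℝ Y] [CompleteSpace Y] (J : X →L[ℝ] (Y →L[ℝ] ℝ)) (c : ℝ)
    (hc : 0 < c) (hJ : ∀ x, c * ‖x‖ ≤ ‖J x‖) (hX : ¬ FiniteDimensional ℝ X) (hN : NI1 X) :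
    (HasL1 Y ∨ HasL1 X) ∧ (Function.Surjective J → HasL1 X) := by
  have h1 : HasL1 Y ∨ HasL1 X := by
    by_cases h : HasL1 Y
    · exact Or.inl h
    · exact Or.inr (FIN3 X hX hN (SRD X Y J c hc hJ h))
  refine ⟨h1, fun hs => ?_⟩
  have hinj : Function.Injective J := by
    intro x y hxy
    have h2 := hJ (x - y)
    rw [map_sub, sub_eq_zero.2 hxy, norm_zero] at h2
    have h3 : ‖x - y‖ ≤ 0 := by
      by_contra hcon
      push Not at hcon
      have := mul_pos hc hcon
      linarith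
    exact sub_eq_zero.1 (norm_le_zero_iff.1 h3)
  rcases h1 with h | h
  · exact hasL1_of_equiv X (Y →L[ℝ] ℝ)
      (ContinuousLinearEquiv.ofBijective J (LinearMap.ker_eq_bot.2 hinj)
        (LinearMap.range_eq_top.2 hs)) (prf_LD prf_L1C Y h)
  · exact h

end MPbb13ef
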